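import Pool.Agent.E8helper48.RR.Stm

/-!
# RR, piece MONO: without a prime period-two solution every solution converges
-/

set_option autoImplicit false

namespace Pool.Agent.E8helper73.RR

open Filter Topology RR48

/-- the limits of four consecutive terms -/
theorem quad {x : ℕ → ℝ} {L K I S c : ℝ} (hb : ∀ n, x n ∈ Set.Icc L K)
    (hup : ∀ ε > 0, ∃ N, ∀ n ≥ N, x n < S + ε) (hlo : ∀ ε > 0, ∃ N, ∀ n ≥ N, I - ε < x n)
    (hc : ∀ ε > 0, ∀ N, ∃ n ≥ N, |x n - c| < ε) :
    ∃ v u w : ℝ, (I ≤ v ∧ v ≤ S) ∧ (I ≤ u ∧ u ≤ S) ∧ (I ≤ w ∧ w ≤ S) ∧ ∃ φ : ℕ → ℕ,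
      Tendsto (fun k => x (φ k)) atTop (𝓝 v) ∧ Tendsto (fun k => x (φ k + 1)) atTop (𝓝 u) ∧
      Tendsto (fun k => x (φ k + 2)) atTop (𝓝 w) ∧ Tendsto (fun k => x (φ k + 3)) atTop (𝓝 c) := by
  have hstep : ∀ k : ℕ, ∃ n, |x (n + 3) - c| < 1 / ((k : ℝ) + 1) ∧
      ∀ i < 3, I - 1 / ((k : ℝ) + 1) < x (n + i) ∧ x (n + i) < S + 1 / ((k : ℝ) + 1) := by
    intro k
    have hε : (0 : ℝ) < 1 / ((k : ℝ) + 1) := by positivity
    obtain ⟨N1, h1⟩ := hup _ hε
    obtain ⟨N2, h2⟩ := hlo _ hε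
    obtain ⟨m, hm, h3⟩ := hc _ hε (N1 + N2 + 3)
    refine ⟨m - 3, ?_, fun i hi => ⟨h2 _ (by omega), h1 _ (by omega)⟩⟩
    rwa [Nat.sub_add_cancel (by omega)]
  choose n hn1 hn2 using hstep
  have hcomp : IsCompact (Set.Icc L K ×ˢ (Set.Icc L K ×ˢ Set.Icc L K)) :=
    isCompact_Icc.prod (isCompact_Icc.prod isCompact_Icc)
  obtain ⟨⟨v, u, w⟩, -, ψ, hψ, hlim⟩ := hcomp.tendsto_subseq
    (x := fun k => (x (n k), x (n k + 1), x (n k + 2))) (fun k => ⟨hb _, hb _, hb _⟩)
  have l1 : Tendsto (fun k => x (n (ψ k))) atTop (𝓝 v) := (continuous_fst.tendsto _).comp hlim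
  have l2 : Tendsto (fun k => x (n (ψ k) + 1)) atTop (𝓝 u) :=
    ((continuous_fst.comp continuous_snd).tendsto _).comp hlim
  have l3 : Tendsto (fun k => x (n (ψ k) + 2)) atTop (𝓝 w) :=
    ((continuous_snd.comp continuous_snd).tendsto _).comp hlim
  have hz : Tendsto (fun k => 1 / (((ψ k : ℕ) : ℝ) + 1)) atTop (𝓝 0) :=
    tendsto_one_div_add_atTop_nhds_zero_nat.comp hψ.tendsto_atTop
  have hlo' : Tendsto (fun k => I - 1 / (((ψ k : ℕ) : ℝ) + 1)) atTop (𝓝 I) := by
    simpa using (tendsto_const_nhds (x := I)).sub hz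
  have hup' : Tendsto (fun k => S + 1 / (((ψ k : ℕ) : ℝ) + 1)) atTop (𝓝 S) := by
    simpa using (tendsto_const_nhds (x := S)).add hz
  refine ⟨v, u, w, ⟨le_of_tendsto_of_tendsto' hlo' l1 fun k => ?_,
    le_of_tendsto_of_tendsto' l1 hup' fun k => ?_⟩,
    ⟨le_of_tendsto_of_tendsto' hlo' l2 fun k => ?_,
    le_of_tendsto_of_tendsto' l2 hup' fun k => ?_⟩,
    ⟨le_of_tendsto_of_tendsto' hlo' l3 fun k => ?_,
    le_of_tendsto_of_tendsto' l3 hup' fun k => ?_⟩, fun k => n (ψ k), l1, l2, l3, ?_⟩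
  · exact (hn2 (ψ k) 0 (by norm_num)).1.le
  · exact (hn2 (ψ k) 0 (by norm_num)).2.le
  · exact (hn2 (ψ k) 1 (by norm_num)).1.le
  · exact (hn2 (ψ k) 1 (by norm_num)).2.le
  · exact (hn2 (ψ k) 2 (by norm_num)).1.le
  · exact (hn2 (ψ k) 2 (by norm_num)).2.le
  · rw [tendsto_iff_dist_tendsto_zero]
    refine squeeze_zero (fun k => dist_nonneg) (fun k => ?_) hz
    rw [Real.dist_eq]
    exact (hn1 (ψ k)).le

/-- the inequalities -/
theorem alg {al A B D I S v u w v' u' w' : ℝ} (hal : 0 < al) (hA : 0 ≤ A) (hB : 0 ≤ B) (hD : 0 < D)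
    (hcond : A < 1 → (1 - A) ^ 2 * (B + D - 1) ≤ 4 * al) (hI : 0 < I) (hIS : I ≤ S)
    (hv : I ≤ v ∧ v ≤ S) (hu : I ≤ u ∧ u ≤ S) (hw : I ≤ w ∧ w ≤ S)
    (hv' : I ≤ v' ∧ v' ≤ S) (hu' : I ≤ u' ∧ u' ≤ S) (hw' : I ≤ w' ∧ w' ≤ S)
    (h1 : S * (A + B * w + u + D * v) = al + u)
    (h2 : I * (A + B * w' + u' + D * v') = al + u') : I = S := by
  have hS : 0 < S := hI.trans_le hIS
  have h1a : S * (A + (B + D) * I) + (S - 1) * u ≤ al := by
    have e1 : 0 ≤ S * (B * (w - I)) := mul_nonneg hS.le (mul_nonneg hB (by linarith [hw.1]))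
    have e2 : 0 ≤ S * (D * (v - I)) := mul_nonneg hS.le (mul_nonneg hD.le (by linarith [hv.1]))
    linarith [e1, e2, h1]
  have h2a : al ≤ I * (A + (B + D) * S) + (I - 1) * u' := by
    have e1 : 0 ≤ I * (B * (S - w')) := mul_nonneg hI.le (mul_nonneg hB (by linarith [hw'.2]))
    have e2 : 0 ≤ I * (D * (S - v')) := mul_nonneg hI.le (mul_nonneg hD.le (by linarith [hv'.2]))
    linarith [e1, e2, h2]
  by_contra hne
  have hlt : I < S := lt_of_le_of_ne hIS hne
  rcases le_or_gt S 1 with hS1 | hS1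
  · have h1b : (S - 1) * S ≤ (S - 1) * u := by
      have : 0 ≤ (1 - S) * (S - u) := mul_nonneg (by linarith) (by linarith [hu.2])
      linarith [this]
    have h2b : (I - 1) * u' ≤ (I - 1) * I := by
      have : 0 ≤ (1 - I) * (u' - I) := mul_nonneg (by linarith) (by linarith [hu'.1])
      linarith [this]
    have h3 : (S - I) * (A + S + I - 1) ≤ 0 := by linarith [h1a, h2a, h1b, h2b]
    have h4 : A + S + I ≤ 1 := by
      by_contra hc
      push Not at hc
      have : 0 < (S - I) * (A + S + I - 1) := mul_pos (by linarith) (by linarith)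
      linarith
    have hA1 : A < 1 := by linarith
    have hIS0 : 0 < I * S := mul_pos hI hS
    have h5 : al ≤ (B + D - 1) * (I * S) := by
      have : 0 ≤ I * (1 - A - S - I) := mul_nonneg hI.le (by linarith)
      linarith [this, h2a, h2b]
    have h6 : 0 < B + D - 1 := by
      by_contra hc
      push Not at hc
      have : (B + D - 1) * (I * S) ≤ 0 := mul_nonpos_of_nonpos_of_nonneg hc hIS0.le
      linarith
    have h7 : 4 * (I * S) < (1 - A) ^ 2 := by
      have e1 : 0 < (S - I) ^ 2 := by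
        have : 0 < S - I := by linarith
        positivity
      have e2 : (S + I) ^ 2 ≤ (1 - A) ^ 2 := by
        apply pow_le_pow_left₀ (by linarith)
        linarith
      linarith [e1, e2]
    have h8 : (B + D - 1) * (4 * (I * S)) < (B + D - 1) * (1 - A) ^ 2 := mul_lt_mul_of_pos_left h7 h6
    have h9 := hcond hA1
    linarith [h5, h8, h9]
  · have h1b : (S - 1) * I ≤ (S - 1) * u := by
      have : 0 ≤ (S - 1) * (u - I) := mul_nonneg (by linarith) (by linarith [hu.1])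
      linarith [this]
    rcases le_or_gt I 1 with hI1 | hI1
    · have h2b : (I - 1) * u' ≤ (I - 1) * I := by
        have : 0 ≤ (1 - I) * (u' - I) := mul_nonneg (by linarith) (by linarith [hu'.1])
        linarith [this]
      have h3 : (S - I) * (A + I) ≤ 0 := by linarith [h1a, h2a, h1b, h2b]
      have : 0 < (S - I) * (A + I) := mul_pos (by linarith) (by linarith)
      linarith
    · have h2b : (I - 1) * u' ≤ (I - 1) * S := by
        have : 0 ≤ (I - 1) * (S - u') := mul_nonneg (by linarith) (by linarith [hu'.2])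
        linarith [this]
      have h3 : (S - I) * (A + 1) ≤ 0 := by linarith [h1a, h2a, h1b, h2b]
      have : 0 < (S - I) * (A + 1) := mul_pos (by linarith) (by linarith)
      linarith

/-- bounds -/
theorem bounds {al A B D : ℝ} {x : ℕ → ℝ} (hal : 0 < al) (hA : 0 ≤ A) (hB : 0 ≤ B) (hD : 0 < D)
    (hx : IsSol al A B D x) : ∃ L K : ℝ, 0 < L ∧ ∀ n, x (n + 3) ∈ Set.Icc L K := by
  have h0 : ∀ n, 0 ≤ x n ∧ 0 ≤ x (n + 1) ∧ 0 ≤ x (n + 2) := by
    intro n
    induction n with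
    | zero => exact ⟨hx.n0, hx.n1, hx.n2⟩
    | succ n ih =>
      refine ⟨ih.2.1, ih.2.2, ?_⟩
      show 0 ≤ x (n + 3)
      rw [hx.step]
      exact div_nonneg (by linarith [ih.2.1]) (hx.den n).le
  have hpos : ∀ n, 0 < x (n + 3) := by
    intro n
    rw [hx.step]
    exact div_pos (by linarith [(h0 n).2.1]) (hx.den n)
  have hBD : 0 < B + D := by linarith
  set K : ℝ := 1 + al / (B + D) + (x 3 + al / ((B + D) * x 3)) + (x 4 + al / ((B + D) * x 4)) +
    (x 5 + al / ((B + D) * x 5)) with hK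
  have p3 : 0 < x 3 := hpos 0
  have p4 : 0 < x 4 := hpos 1
  have p5 : 0 < x 5 := hpos 2
  have q0 : 0 < al / (B + D) := by positivity
  have q3 : 0 < al / ((B + D) * x 3) := by positivity
  have q4 : 0 < al / ((B + D) * x 4) := by positivity
  have q5 : 0 < al / ((B + D) * x 5) := by positivity
  have hK1 : 1 ≤ K := by linarith
  have hKpos : 0 < A + (B + D) * K := by
    have : 0 < (B + D) * K := mul_pos hBD (by linarith)
    linarith
  set L : ℝ := al / (A + (B + D) * K) with hL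
  have hL0 : 0 < L := by positivity
  have hLK : L * (A + (B + D) * K) = al := by rw [hL]; field_simp
  have hL1 : L ≤ 1 := by
    rw [hL, div_le_one hKpos]
    have : al = (B + D) * (al / (B + D)) := by field_simp
    have h2 : (B + D) * (al / (B + D)) ≤ (B + D) * K := mul_le_mul_of_nonneg_left (by linarith) hBD.le
    linarith
  have hLx : ∀ t : ℝ, 0 < t → al / ((B + D) * t) ≤ K → L ≤ t := by
    intro t ht h
    rw [hL, div_le_iff₀ hKpos]
    have h1 : al ≤ K * ((B + D) * t) := by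
      rwa [div_le_iff₀ (by positivity)] at h
    linarith [mul_nonneg ht.le hA]
  refine ⟨L, K, hL0, ?_⟩
  have hall : ∀ n, x (n + 3) ∈ Set.Icc L K ∧ x (n + 4) ∈ Set.Icc L K ∧ x (n + 5) ∈ Set.Icc L K := by
    intro n
    induction n with
    | zero =>
      refine ⟨⟨hLx _ p3 (by linarith), by show x 3 ≤ K; linarith⟩,
        ⟨hLx _ p4 (by linarith), by show x 4 ≤ K; linarith⟩,
        ⟨hLx _ p5 (by linarith), by show x 5 ≤ K; linarith⟩⟩
    | succ n ih =>
      refine ⟨ih.2.1, ih.2.2, ?_⟩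
      obtain ⟨⟨a1, a2⟩, ⟨b1, b2⟩, ⟨c1, c2⟩⟩ := ih
      have hd := hx.den (n + 3)
      have hs := hx.step (n + 3)
      show x (n + 3 + 3) ∈ Set.Icc L K
      rw [hs]
      have e1 : x (n + 3 + 2) = x (n + 5) := rfl
      have e2 : x (n + 3 + 1) = x (n + 4) := rfl
      rw [e1, e2] at hd ⊢
      constructor
      · rw [le_div_iff₀ hd]
        have f1 : 0 ≤ L * (B * (K - x (n + 5))) :=
          mul_nonneg hL0.le (mul_nonneg hB (by linarith))
        have f2 : 0 ≤ L * (D * (K - x (n + 3))) :=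
          mul_nonneg hL0.le (mul_nonneg hD.le (by linarith))
        have f3 : 0 ≤ (1 - L) * x (n + 4) := mul_nonneg (by linarith) (by linarith)
        linarith [f1, f2, f3, hLK]
      · rw [div_le_iff₀ hd]
        have f1 : 0 ≤ K * (B * (x (n + 5) - L)) :=
          mul_nonneg (by linarith) (mul_nonneg hB (by linarith))
        have f2 : 0 ≤ K * (D * (x (n + 3) - L)) :=
          mul_nonneg (by linarith) (mul_nonneg hD.le (by linarith))
        have f3 : 0 ≤ (K - 1) * x (n + 4) := mul_nonneg (by linarith) (by linarith)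
        have f4 : 0 ≤ (K - L) * A := mul_nonneg (by linarith) hA
        linarith [f1, f2, f3, f4, hLK]
  exact fun n => (hall n).1

/-- **MONO** -/
theorem t_MONO : S_MONO := by
  intro al A B D x hal hA hB hD hcond hx
  obtain ⟨L, K, hL, hb⟩ := bounds hal hA hB hD hx
  obtain ⟨y, hy⟩ : ∃ y : ℕ → ℝ, y = fun n => x (n + 3) := ⟨_, rfl⟩
  have hyb : ∀ n, y n ∈ Set.Icc L K := by
    intro n
    rw [hy]
    exact hb n
  have hstep : ∀ n, y (n + 3) * (A + B * y (n + 2) + y (n + 1) + D * y n) = al + y (n + 1) := by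
    intro n
    rw [hy]
    show x (n + 3 + 3) * (A + B * x (n + 3 + 2) + x (n + 3 + 1) + D * x (n + 3)) =
      al + x (n + 3 + 1)
    rw [hx.step (n + 3), div_mul_cancel₀ _ (hx.den (n + 3)).ne']
  have hbU : atTop.IsBoundedUnder (· ≤ ·) y := isBoundedUnder_of ⟨K, fun n => (hyb n).2⟩
  have hbL : atTop.IsBoundedUnder (· ≥ ·) y := isBoundedUnder_of ⟨L, fun n => (hyb n).1⟩
  obtain ⟨S, hS⟩ : ∃ S, S = limsup y atTop := ⟨_, rfl⟩
  obtain ⟨I, hI⟩ : ∃ I, I = liminf y atTop := ⟨_, rfl⟩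
  have hup : ∀ ε > 0, ∃ N, ∀ n ≥ N, y n < S + ε := by
    intro ε hε
    exact eventually_atTop.1 (eventually_lt_of_limsup_lt (by rw [← hS]; linarith) hbU)
  have hlo : ∀ ε > 0, ∃ N, ∀ n ≥ N, I - ε < y n := by
    intro ε hε
    exact eventually_atTop.1 (eventually_lt_of_lt_liminf (by rw [← hI]; linarith) hbL)
  have hcS : ∀ ε > 0, ∀ N, ∃ n ≥ N, |y n - S| < ε := by
    intro ε hε N
    obtain ⟨N', hN'⟩ := hup ε hε
    have hf : ∃ᶠ n in atTop, S - ε < y n :=
      frequently_lt_of_lt_limsup hbL.isCoboundedUnder_le (by rw [← hS]; linarith)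
    obtain ⟨n, hn, h1⟩ := frequently_atTop.1 hf (max N N')
    refine ⟨n, (le_max_left _ _).trans hn, ?_⟩
    have h2 := hN' n ((le_max_right _ _).trans hn)
    rw [abs_lt]
    constructor <;> linarith
  have hcI : ∀ ε > 0, ∀ N, ∃ n ≥ N, |y n - I| < ε := by
    intro ε hε N
    obtain ⟨N', hN'⟩ := hlo ε hε
    have hf : ∃ᶠ n in atTop, y n < I + ε :=
      frequently_lt_of_liminf_lt hbU.isCoboundedUnder_ge (by rw [← hI]; linarith)
    obtain ⟨n, hn, h1⟩ := frequently_atTop.1 hf (max N N')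
    refine ⟨n, (le_max_left _ _).trans hn, ?_⟩
    have h2 := hN' n ((le_max_right _ _).trans hn)
    rw [abs_lt]
    constructor <;> linarith
  have hIL : L ≤ I := by
    rw [hI]
    exact le_liminf_of_le hbU.isCoboundedUnder_ge (Eventually.of_forall fun n => (hyb n).1)
  have hIS : I ≤ S := by
    rw [hI, hS]
    exact liminf_le_limsup hbU hbL
  obtain ⟨v, u, w, hv, hu, hw, φ, l1, l2, l3, l4⟩ := quad hyb hup hlo hcS
  obtain ⟨v', u', w', hv', hu', hw', φ', l1', l2', l3', l4'⟩ := quad hyb hup hlo hcI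
  have e1 : S * (A + B * w + u + D * v) = al + u := by
    have t1 : Tendsto (fun k => y (φ k + 3) * (A + B * y (φ k + 2) + y (φ k + 1) + D * y (φ k)))
        atTop (𝓝 (S * (A + B * w + u + D * v))) :=
      l4.mul (((tendsto_const_nhds.add (l3.const_mul B)).add l2).add (l1.const_mul D))
    have t2 : Tendsto (fun k => al + y (φ k + 1)) atTop (𝓝 (al + u)) := l2.const_add al
    refine tendsto_nhds_unique t1 (t2.congr fun k => ?_)
    exact (hstep (φ k)).symm
  have e2 : I * (A + B * w' + u' + D * v') = al + u' := by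
    have t1 : Tendsto (fun k => y (φ' k + 3) * (A + B * y (φ' k + 2) + y (φ' k + 1) + D * y (φ' k)))
        atTop (𝓝 (I * (A + B * w' + u' + D * v'))) :=
      l4'.mul (((tendsto_const_nhds.add (l3'.const_mul B)).add l2').add (l1'.const_mul D))
    have t2 : Tendsto (fun k => al + y (φ' k + 1)) atTop (𝓝 (al + u')) := l2'.const_add al
    refine tendsto_nhds_unique t1 (t2.congr fun k => ?_)
    exact (hstep (φ' k)).symm
  have hIS' : I = S := alg hal hA hB hD hcond (hL.trans_le hIL) hIS hv hu hw hv' hu' hw' e1 e2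
  refine ⟨I, hL.trans_le hIL, ?_⟩
  have hyt : Tendsto y atTop (𝓝 I) :=
    tendsto_of_liminf_eq_limsup hI.symm (by rw [← hS, hIS']) hbU hbL
  rw [hy] at hyt
  exact (tendsto_add_atTop_iff_nat 3).1 hyt

end Pool.Agent.E8helper73.RR
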