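import Pool.Agent.E8helper48.RR.Stm5

/-!
# RR, pieces LO5 and LO50
-/

set_option autoImplicit false

namespace Pool.Agent.E8helper73.RR

open RR48

/-- **LO50** -/
theorem t_LO50 : S_LO50 := by
  intro al A D z I S y2 y3 hal hA hD hz hE hz1 hzS hI hy2S halD hy2 hzy3 hIe
  have hy3 : 0 < y3 := lt_of_lt_of_le hz hzy3
  have hS : 0 < S := lt_trans hz hzS
  have hpos : 0 < A + y3 + D * y2 := by positivity
  have hI1 : I ≤ 1 := by
    by_contra hc
    push Not at hc
    have : 1 * (A + y3 + D * y2) < I * (A + y3 + D * y2) := mul_lt_mul_of_pos_right hc hpos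
    linarith
  have h1 : al + z ≤ I * (A + z + D * S) := by
    have e1 : I * (D * y2) ≤ I * (D * S) :=
      mul_le_mul_of_nonneg_left (mul_le_mul_of_nonneg_left hy2S hD.le) hI.le
    have e2 : I * (y3 - z) ≤ 1 * (y3 - z) :=
      mul_le_mul_of_nonneg_right hI1 (by linarith)
    nlinarith
  have hQ : 0 < A + z + D * S := by positivity
  have h2 : z ^ 2 * (A + z + D * S) ≤ (al + z) * S := by
    have e : (al + z) * S - z ^ 2 * (A + z + D * S) =
        (z * (A + z)) * (S - z) := by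
      have hz2 : z ^ 2 * A = z * (al + z) - z ^ 3 * (D + 1) := by
        linear_combination z * hE
      linear_combination (-(1 : ℝ)) * hz2 + (z - S) * hE
    have : 0 ≤ (z * (A + z)) * (S - z) := mul_nonneg (by positivity) (by linarith)
    linarith
  have h3 : (al + z) * S ≤ I * (A + z + D * S) * S := mul_le_mul_of_nonneg_right h1 hS.le
  have h4 : z ^ 2 * (A + z + D * S) ≤ (I * S) * (A + z + D * S) := by
    calc z ^ 2 * (A + z + D * S) ≤ I * (A + z + D * S) * S := h2.trans h3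
      _ = (I * S) * (A + z + D * S) := by ring
  exact le_of_mul_le_mul_right h4 hQ

/-- the polynomial inequality -/
theorem poly (al D z w u y i : ℝ) (hal : 0 < al) (hD : 0 < D) (hz : 0 < z) (hu : u = 1 - z)
    (hw : w = al + z) (hd : D * z ≤ u) (hy : 0 ≤ y) (hyi : y ≤ i) :
    z * (w + z * (y + D * i)) * (w * u ^ 2 + D ^ 2 * z ^ 2 * y) ≤
      u * (w ^ 2 + z * (1 + al) * y + z * al * D * i) * (z * u + i) := by
  have hDz : 0 < D * z := mul_pos hD hz
  obtain ⟨d, hdd⟩ : ∃ d, d = D * z := ⟨_, rfl⟩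
  have hd0 : 0 < d := by rw [hdd]; exact hDz
  have hdu : d ≤ u := by rw [hdd]; exact hd
  have hu0 : 0 < u := lt_of_lt_of_le hd0 hdu
  have hu1 : u ≤ 1 := by linarith
  have hi : 0 ≤ i := hy.trans hyi
  have hwz : z ≤ w := by linarith
  have hw0 : 0 < w := by linarith
  have hd2 : d ^ 2 ≤ u := by nlinarith
  have hb2 : 0 ≤ u * w ^ 2 - z ^ 2 * d * u ^ 2 := by
    have e1 : z ^ 2 ≤ w ^ 2 := by nlinarith
    have e2 : d * u ≤ 1 := by nlinarith
    have e3 : z ^ 2 * (d * u) ≤ w ^ 2 * 1 :=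
      mul_le_mul e1 e2 (by positivity) (by positivity)
    have e4 : 0 ≤ u * (w ^ 2 * 1 - z ^ 2 * (d * u)) := mul_nonneg hu0.le (by linarith)
    nlinarith
  have hb12 : 0 ≤ (z ^ 2 * u ^ 3 - z * d ^ 2 * w) + (u * w ^ 2 - z ^ 2 * d * u ^ 2) := by
    have e1 : 0 ≤ z ^ 2 * u ^ 2 * (u - d) := mul_nonneg (by positivity) (by linarith)
    have e2 : z * d ^ 2 ≤ w * u := mul_le_mul hwz hd2 (by positivity) hw0.le
    have e3 : 0 ≤ w * (w * u - z * d ^ 2) := mul_nonneg hw0.le (by linarith)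
    nlinarith
  have hlin : 0 ≤ y * (z ^ 2 * u ^ 3 - z * d ^ 2 * w) + i * (u * w ^ 2 - z ^ 2 * d * u ^ 2) := by
    have e1 := mul_nonneg hy hb12
    have e2 := mul_nonneg (sub_nonneg.mpr hyi) hb2
    nlinarith
  have hquad : z ^ 2 * d ^ 2 * y ^ 2 + z * d ^ 3 * y * i ≤
      i * u * z * (1 + al) * y + i * u * al * d * i := by
    have e1 : y ^ 2 ≤ y * i := by nlinarith
    have e2 : z ^ 2 * d ^ 2 * y ^ 2 ≤ z ^ 2 * d ^ 2 * (y * i) :=
      mul_le_mul_of_nonneg_left e1 (by positivity)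
    have e3 : d ^ 2 * (z + d) ≤ u * 1 :=
      mul_le_mul hd2 (by linarith) (by positivity) hu0.le
    have hyi0 : 0 ≤ y * i := mul_nonneg hy hi
    have e4 : z * (y * i) * (d ^ 2 * (z + d)) ≤ z * (y * i) * (u * 1) :=
      mul_le_mul_of_nonneg_left e3 (by positivity)
    have e5 : 0 ≤ i * u * z * al * y := by positivity
    have e6 : 0 ≤ i * u * al * d * i := by positivity
    nlinarith
  have key : u * (w ^ 2 + z * (1 + al) * y + z * al * D * i) * (z * u + i) -
      z * (w + z * (y + D * i)) * (w * u ^ 2 + D ^ 2 * z ^ 2 * y) =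
      (y * (z ^ 2 * u ^ 3 - z * d ^ 2 * w) + i * (u * w ^ 2 - z ^ 2 * d * u ^ 2)) +
      (i * u * z * (1 + al) * y + i * u * al * d * i -
        (z ^ 2 * d ^ 2 * y ^ 2 + z * d ^ 3 * y * i)) := by
    subst hdd hw hu
    ring
  linarith

/-- **LO5** -/
theorem t_LO5 : S_LO5 := by
  intro al A D z I S y0 y1 y2 y3 y4 hal hA hD hz hE hz1 hzS hI hy0 hy0S hzy1 hy1S hy2S halD hy2
    hy3 hy4 hy4z h3 h4 hIe
  have hDz : 0 < D * z := mul_pos hD hz
  have hS : 0 < S := lt_trans hz hzS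
  have hy1 : 0 < y1 := lt_of_lt_of_le hz hzy1
  have hu0 : 0 < 1 - z := by nlinarith
  -- step a
  have ha : al + y2 ≤ z * (A + y2 + D * y1) := by
    rw [← h4]
    exact mul_le_mul_of_nonneg_right hy4z (by positivity)
  have hb : y2 * (1 - z) ≤ z * (1 - z) + D * z * (y1 - z) := by nlinarith
  have hb' : D * z * (y2 * (1 - z)) ≤ D * z * (z * (1 - z) + D * z * (y1 - z)) :=
    mul_le_mul_of_nonneg_left hb hDz.le
  have hN : (1 - z) * z * (A + D * y2 - al) ≤
      (al + z) * (1 - z) ^ 2 + D ^ 2 * z ^ 2 * (y1 - z) := by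
    have e : (1 - z) * (z * A) = (1 - z) * (al + z - (D + 1) * z ^ 2) := by
      linear_combination (1 - z) * hE
    nlinarith
  -- step b
  have hQ : 0 < A + y1 + D * S := by positivity
  have hR : al * (A + y1 + D * S) + al + y1 ≤ (al + y3) * (A + y1 + D * S) := by
    have e : y3 * (A + y1 + D * y0) ≤ y3 * (A + y1 + D * S) :=
      mul_le_mul_of_nonneg_left (by nlinarith) hy3.le
    nlinarith
  -- step c
  have hP := poly al D z (al + z) (1 - z) (y1 - z) (S - z) hal hD hz rfl rfl (by linarith)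
    (by linarith) (by linarith)
  have eQ : z * (A + y1 + D * S) = (al + z) + z * ((y1 - z) + D * (S - z)) := by
    linear_combination hE
  have eR : z * (al * (A + y1 + D * S) + al + y1) =
      (al + z) ^ 2 + z * (1 + al) * (y1 - z) + z * al * D * (S - z) := by
    linear_combination al * hE
  rw [← eQ, ← eR] at hP
  have hSz : 0 < S - z ^ 2 := by nlinarith
  have c1 : z ^ 2 * (A + D * y2 - al) * ((A + y1 + D * S) * ((1 - z) * z)) ≤
      (al + y3) * (S - z ^ 2) * ((A + y1 + D * S) * ((1 - z) * z)) := by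
    calc z ^ 2 * (A + D * y2 - al) * ((A + y1 + D * S) * ((1 - z) * z))
        = (z ^ 2 * (A + y1 + D * S)) * ((1 - z) * z * (A + D * y2 - al)) := by ring
      _ ≤ (z ^ 2 * (A + y1 + D * S)) *
          ((al + z) * (1 - z) ^ 2 + D ^ 2 * z ^ 2 * (y1 - z)) :=
          mul_le_mul_of_nonneg_left hN (by positivity)
      _ = z * (z * (A + y1 + D * S)) *
          ((al + z) * (1 - z) ^ 2 + D ^ 2 * z ^ 2 * (y1 - z)) := by ring
      _ ≤ (1 - z) * (z * (al * (A + y1 + D * S) + al + y1)) * (z * (1 - z) + (S - z)) := hP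
      _ = ((1 - z) * z * (S - z ^ 2)) * (al * (A + y1 + D * S) + al + y1) := by ring
      _ ≤ ((1 - z) * z * (S - z ^ 2)) * ((al + y3) * (A + y1 + D * S)) :=
          mul_le_mul_of_nonneg_left hR (by positivity)
      _ = (al + y3) * (S - z ^ 2) * ((A + y1 + D * S) * ((1 - z) * z)) := by ring
  have c2 : z ^ 2 * (A + D * y2 - al) ≤ (al + y3) * (S - z ^ 2) :=
    le_of_mul_le_mul_right c1 (by positivity)
  have hpos : 0 < A + y3 + D * y2 := by positivity
  have c3 : z ^ 2 * (A + y3 + D * y2) ≤ (I * S) * (A + y3 + D * y2) := by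
    have e : (I * S) * (A + y3 + D * y2) = (al + y3) * S := by
      linear_combination S * hIe
    have e' : z ^ 2 * (A + y3 + D * y2) =
        z ^ 2 * (A + D * y2 - al) + (al + y3) * z ^ 2 := by ring
    have e'' : (al + y3) * S = (al + y3) * (S - z ^ 2) + (al + y3) * z ^ 2 := by ring
    rw [e, e', e'']
    exact add_le_add_left c2 _
  exact le_of_mul_le_mul_right c3 hpos

end Pool.Agent.E8helper73.RR
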